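import Mathlib
import Pool.Agent.H.MP_d6ea2c_co.B

set_option autoImplicit false

namespace Pool.Agent.Results.MP_d6ea2c_co.Two

/-- `G` has a connected partition of every type -/
def AllTypes {n : ℕ} (G : SimpleGraph (Fin n)) : Prop :=
  ∀ l : Nat.Partition n, ∃ P : Finpartition (Finset.univ : Finset (Fin n)),
    (∀ B ∈ P.parts, (G.induce (B : Set (Fin n))).Connected) ∧ P.parts.val.map Finset.card = l.parts

theorem result : ∃ (n : ℕ) (G : SimpleGraph (Fin n)) (_ : DecidableRel G.Adj),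
    G.IsTree ∧ G.maxDegree = 4 ∧ AllTypes G ∧
      ∃ u v : Fin n, u ≠ v ∧ G.degree u = 4 ∧ G.degree v = 4 :=
  ⟨61, Pool.Agent.H.MP_d6ea2c_co.G, inferInstance, Pool.Agent.H.MP_d6ea2c_co.tree,
    Pool.Agent.H.MP_d6ea2c_co.degs.1, Pool.Agent.H.MP_d6ea2c_co.all_types, 12, 25, by decide,
    Pool.Agent.H.MP_d6ea2c_co.degs.2.1, Pool.Agent.H.MP_d6ea2c_co.degs.2.2⟩

end Pool.Agent.Results.MP_d6ea2c_co.Two
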